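import Pool.Agent.DPF.Stmts

/-! INC: monotonicity. -/

set_option autoImplicit false

namespace Pool.Agent.DPF.H60

open Finset Pool.Agent.DPS Pool.Agent.DPF

theorem ph_mono (θ : ℝ) {x y : ℝ} (h : x ≤ y) : ph θ x ≤ ph θ y := by
  unfold ph
  apply pow_le_pow_left₀ (le_max_right _ _)
  exact max_le_max (by linarith) le_rfl

theorem inc : INCStmt := by
  intro n r θ
  refine ⟨fun F F' h => ?_, fun k l 𝒜 K hK => ?_⟩
  · unfold Lam
    refine Finset.sum_le_sum fun R _ => ph_mono θ ?_
    unfold degree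
    exact_mod_cast Finset.card_le_card (Finset.filter_subset_filter _ h)
  · unfold fam at hK ⊢
    rw [Finset.mem_filter] at hK ⊢
    refine ⟨hK.1, ?_⟩
    unfold upc
    rw [Finset.mem_filter, Finset.mem_powerset]
    exact ⟨Finset.inter_subset_right, _, hK.2, Finset.Subset.refl _⟩

end Pool.Agent.DPF.H60
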