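import Pool.Agent.DPF.StmtsR

/-!
Row N1 of the squad DPF (MP_d97b4e_co): the numeric inequality for `L = t + 1`.
-/

namespace Pool.Agent.DPF.H60

open Finset Pool.Agent.DPS

/-- The numeric core of N1. -/
theorem n1_core (p b x : ℝ) (hp : 0 < p) (hb : 0 < b) (hx : p / (p + 1) ≤ x) :
    (p + b + 1) / b ≤
      (p + 1) / (p + b) * (max (1 - x) 0) ^ 2 +
        (p + 1) * p / ((p + b) * b) * (max (1 + x * (b / p)) 0) ^ 2 +
        (p + 1) / (p + b) * ((p + b) * (max (1 - x) 0) ^ 2) := by
  have hx0 : 0 ≤ x := le_trans (by positivity) hx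
  have hpb : 0 < p + b := by positivity
  have hm : max (1 + x * (b / p)) 0 = 1 + x * (b / p) := max_eq_left (by positivity)
  rw [hm]
  rcases le_total x 1 with h1 | h1
  · have hm2 : max (1 - x) 0 = 1 - x := max_eq_left (by linarith)
    rw [hm2]
    have hid : (p + 1) / (p + b) * (1 - x) ^ 2 +
        (p + 1) * p / ((p + b) * b) * (1 + x * (b / p)) ^ 2 +
        (p + 1) / (p + b) * ((p + b) * (1 - x) ^ 2) - (p + b + 1) / b =
        ((p + 1) * (p + b + 1) / (p + b) + (p + 1) * b / (p * (p + b))) *
          (x - p / (p + 1)) ^ 2 := by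
      field_simp
      ring
    have hpos : 0 ≤ ((p + 1) * (p + b + 1) / (p + b) + (p + 1) * b / (p * (p + b))) *
          (x - p / (p + 1)) ^ 2 := by positivity
    linarith
  · have hm2 : max (1 - x) 0 = 0 := max_eq_right (by linarith)
    rw [hm2]
    have h2 : (1 + b / p) ^ 2 ≤ (1 + x * (b / p)) ^ 2 := by
      have h3 : b / p ≤ x * (b / p) := by
        have : 0 < b / p := by positivity
        nlinarith
      have h4 : 0 ≤ b / p := by positivity
      exact pow_le_pow_left₀ (by positivity) (by linarith) 2
    have h5 : (p + b + 1) / b ≤ (p + 1) * p / ((p + b) * b) * (1 + b / p) ^ 2 := by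
      have h6 : (p + 1) * p / ((p + b) * b) * (1 + b / p) ^ 2 - (p + b + 1) / b = 1 / p := by
        field_simp
        ring
      have h7 : 0 ≤ 1 / p := by positivity
      linarith
    have h8 : (p + 1) * p / ((p + b) * b) * (1 + b / p) ^ 2 ≤
        (p + 1) * p / ((p + b) * b) * (1 + x * (b / p)) ^ 2 :=
      mul_le_mul_of_nonneg_left h2 (by positivity)
    have h9 : (p + 1) / (p + b) * (0 : ℝ) ^ 2 = 0 := by simp
    have h10 : (p + 1) / (p + b) * ((p + b) * (0 : ℝ) ^ 2) = 0 := by simp
    linarith

theorem s0_t (k t : ℕ) (htk : t < k) : s0 k t (t + 1) t = (t : ℝ) + 1 := by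
  unfold s0
  have h : ((k : ℝ) - t) ≠ 0 := by
    have h1 : (t : ℝ) < k := by exact_mod_cast htk
    have h2 : (0 : ℝ) < (k : ℝ) - t := by linarith
    exact ne_of_gt h2
  push_cast
  field_simp
  ring

theorem sta_t (k t i : ℕ) (htk : t < k) : sta k t (t + 1) i t = 2 := by
  unfold sta
  have h1 : ¬ k ≤ t := by omega
  have h2 : ¬ k + t ≤ t + 1 + t - 1 := by omega
  have h3 : ¬ t + 1 + t - 1 + i < 2 * t := by omega
  have h4 : ¬ 2 * t + i < t + 1 + t - 1 := by omega
  simp only [h1, h2, h3, h4, if_false]

theorem n1 : N1Stmt := by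
  intro k t ht htk
  refine ⟨fun _ => 0, ⟨rfl, fun _ => le_refl _, fun _ => zero_le_one, ?_⟩, ?_⟩
  · intro e he1 he2 he3 he4
    have het : e = t := by omega
    subst het
    refine ⟨fun h => absurd h (by omega), fun _ => ?_⟩
    rw [s0_t k e htk]
    have h : ((e : ℝ) + 1) ≠ 0 := by positivity
    push_cast
    have h2 : ((e : ℝ) + 1) * ((1 - 0) * (((e : ℝ) + 1 - e) / ((e : ℝ) + 1))) = 1 := by
      field_simp
      ring
    rw [h2]
  · intro a M ha hM0 hM hsum
    refine ⟨fun _ => (t : ℝ) + 1, fun _ => by positivity, ?_, ?_⟩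
    · intro i hi e he _
      have h := hM e he
      have het : e = t := by omega
      subst het
      rw [s0_t k e htk]
    · have hMz : ∀ e ∈ range (t + 1), e ≠ t → M e = 0 := by
        intro e he hne
        by_contra hc
        have h := hM e hc
        have := Finset.mem_range.mp he
        omega
      have htm : t ∈ range (t + 1) := Finset.mem_range.mpr (Nat.lt_succ_self t)
      have hMt : 1 ≤ M t := by
        rw [Finset.sum_eq_single_of_mem t htm (fun e he hne => hMz e he hne)] at hsum
        exact hsum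
      -- the sum over the modes
      have hw : ∑ i ∈ range (t + 1), wt (t + 1) (fun _ => (0 : ℝ)) i *
          ph4 (t + 1) a (s0 k t (t + 1)) (sta k t (t + 1) i) M ((t : ℝ) + 1) 1 =
          ph4 (t + 1) a (s0 k t (t + 1)) (sta k t (t + 1) t) M ((t : ℝ) + 1) 1 := by
        rw [Finset.sum_eq_single_of_mem t htm]
        · unfold wt
          simp
        · intro i _ hne
          unfold wt
          have h : ¬ i + 1 = t + 1 := by omega
          rw [if_neg h]
          ring
      rw [hw]
      set st := sta k t (t + 1) t with hst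
      have hstt : st t = 2 := sta_t k t t htk
      have hxz : ∀ e ∈ range (t + 1), e ≠ t → xe (t + 1) a M e = 0 := by
        intro e he hne
        unfold xe
        rw [hMz e he hne]
        ring
      have hat : a + 1 ≤ t := by omega
      have hp : (0 : ℝ) < (t : ℝ) - a := by
        have : (a : ℝ) + 1 ≤ t := by exact_mod_cast hat
        linarith
      set x := xe (t + 1) a M t with hx
      have hxval : x = M t * (((t : ℝ) - a) / ((t : ℝ) - a + 1)) := by
        rw [hx]
        unfold xe
        push_cast
        congr 2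
        ring
      have hgA : gA (t + 1) a (s0 k t (t + 1)) st M = - x := by
        unfold gA
        rw [Finset.sum_eq_single_of_mem t htm (fun e he hne => by rw [hxz e he hne]; ring)]
        rw [hstt, ← hx]
        norm_num
      have hgN : gN (t + 1) a (s0 k t (t + 1)) st M =
          x * (((a : ℝ) + 1) / ((t : ℝ) - a)) := by
        unfold gN
        rw [Finset.sum_eq_single_of_mem t htm (fun e he hne => by rw [hxz e he hne]; ring)]
        rw [hstt, ← hx, s0_t k t htk]
        have hp' : ((t : ℝ) - a) ≠ 0 := ne_of_gt hp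
        have h2 : ((((t + 1 : ℕ) : ℝ)) - a - 1) = (t : ℝ) - a := by push_cast; ring
        rw [h2]
        norm_num
        left
        field_simp
        ring
      have hdB : dB (t + 1) a st M = x := by
        unfold dB
        rw [Finset.sum_eq_single_of_mem t htm]
        · rw [hstt, ← hx]
          norm_num
        · intro e he hne
          rw [hMz e he hne, hxz e he hne]
          simp
      have hxlow : ((t : ℝ) - a) / ((t : ℝ) - a + 1) ≤ x := by
        rw [hxval]
        have h1 : 0 ≤ ((t : ℝ) - a) / ((t : ℝ) - a + 1) := by positivity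
        nlinarith
      have hcore := n1_core ((t : ℝ) - a) ((a : ℝ) + 1) x hp (by positivity) hxlow
      unfold ph4
      rw [hgA, hgN, hdB]
      have e1 : (((t + 1 : ℕ) : ℝ)) = (t : ℝ) - a + ((a : ℝ) + 1) := by push_cast; ring
      have hthird : 0 ≤ (a : ℝ) / ((t + 1 : ℕ) : ℝ) *
          (((t : ℝ) + 1) * (max (1 - dA (t + 1) st M) 0) ^ 2) := by positivity
      have e2 : ((t : ℝ) - a + ((a : ℝ) + 1)) - a = (t : ℝ) - a + 1 := by ring
      have e3 : (t : ℝ) - a + 1 - 1 = (t : ℝ) - a := by ring
      have e4 : (t : ℝ) + 1 = (t : ℝ) - a + ((a : ℝ) + 1) := by ring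
      have e5 : (1 : ℝ) + -x = 1 - x := by ring
      rw [e1] at hthird ⊢
      rw [e2, e3, e5]
      rw [e4] at hthird ⊢
      linarith
end Pool.Agent.DPF.H60
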