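import Pool.Agent.DPF.Stmts

/-! SPL: splitting the sum over the r-sets. -/

set_option autoImplicit false

namespace Pool.Agent.DPF.H60

open Finset Pool.Agent.DPS Pool.Agent.DPF

theorem card_ini' {n l : ℕ} (h : l ≤ n) : (ini n l).card = l := by
  have h1 : (ini n l).map Fin.valEmbedding = Finset.range l := by
    ext x
    rw [Finset.mem_map, Finset.mem_range]
    constructor
    · rintro ⟨y, hy, rfl⟩
      unfold ini at hy
      rw [Finset.mem_filter] at hy
      exact hy.2
    · intro hx
      refine ⟨⟨x, lt_of_lt_of_le hx h⟩, ?_, rfl⟩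
      unfold ini
      rw [Finset.mem_filter]
      exact ⟨Finset.mem_univ _, hx⟩
  have h2 := congrArg Finset.card h1
  rw [Finset.card_map, Finset.card_range] at h2
  exact h2

/-- the sum over the sets of a given size, with or without `c` -/
theorem sum_b {n : ℕ} (c : Fin n) (S : Finset (Fin n)) (hc : c ∈ S) (b : ℕ) (x y : ℝ) :
    ∑ B ∈ powersetCard b S, (if c ∈ B then x else y) =
      (wl S.card b : ℝ) * x + ((S.card - 1).choose b : ℝ) * y := by
  have h1 : (powersetCard b S).filter (fun B => c ∉ B) = powersetCard b (S.erase c) := by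
    ext B
    rw [Finset.mem_filter, Finset.mem_powersetCard, Finset.mem_powersetCard]
    constructor
    · rintro ⟨⟨h2, h3⟩, h4⟩
      exact ⟨Finset.subset_erase.2 ⟨h2, h4⟩, h3⟩
    · rintro ⟨h2, h3⟩
      have h4 := Finset.subset_erase.1 h2
      exact ⟨⟨h4.1, h3⟩, h4.2⟩
  have h2 : ((powersetCard b S).filter (fun B => c ∉ B)).card = (S.card - 1).choose b := by
    rw [h1, Finset.card_powersetCard, Finset.card_erase_of_mem hc]
  have h3 := Finset.card_filter_add_card_filter_not (s := powersetCard b S) (p := fun B => c ∈ B)
  rw [h2, Finset.card_powersetCard] at h3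
  have hpos : 0 < S.card := Finset.card_pos.2 ⟨c, hc⟩
  have h4 : ((powersetCard b S).filter (fun B => c ∈ B)).card = wl S.card b := by
    unfold wl
    rcases Nat.eq_zero_or_pos b with h0 | h0
    · rw [if_pos h0]
      subst h0
      rw [Nat.choose_zero_right, Nat.choose_zero_right] at h3
      omega
    · rw [if_neg h0.ne']
      obtain ⟨b', rfl⟩ : ∃ b', b = b' + 1 := ⟨b - 1, by omega⟩
      obtain ⟨s, hs⟩ : ∃ s, S.card = s + 1 := ⟨S.card - 1, by omega⟩
      rw [hs] at h3 ⊢
      have h5 := Nat.choose_succ_succ s b'
      simp only [Nat.add_sub_cancel, Nat.succ_eq_add_one] at h3 h5 ⊢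
      omega
  rw [Finset.sum_ite, Finset.sum_const, Finset.sum_const, h4, h2, nsmul_eq_mul, nsmul_eq_mul]

theorem spl : SPLStmt := by
  intro n r c f g
  classical
  set S := ini n c.val with hS
  have hcS : c ∉ S := by
    rw [hS]
    unfold ini
    rw [Finset.mem_filter]
    exact fun h => lt_irrefl _ h.2
  have hcard : (Sᶜ).card = n - c.val := by
    rw [Finset.card_compl, Fintype.card_fin, hS, card_ini' c.isLt.le]
  rw [← Finset.sum_fiberwise_of_maps_to (s := powersetCard r (univ : Finset (Fin n)))
    (t := S.powerset) (g := fun R => R ∩ S)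
    (fun R _ => Finset.mem_powerset.2 Finset.inter_subset_right)]
  refine Finset.sum_congr rfl fun A hA => ?_
  rw [Finset.mem_powerset] at hA
  by_cases hr : A.card ≤ r
  · rw [if_pos hr]
    have h1 := sum_b c Sᶜ (Finset.mem_compl.2 hcS) (r - A.card) (f (r - A.card) A)
      (g (r - A.card) A)
    rw [hcard] at h1
    rw [← h1]
    symm
    refine Finset.sum_bij' (fun B _ => A ∪ B) (fun R _ => R \ S) ?_ ?_ ?_ ?_ ?_
    · intro B hB
      rw [Finset.mem_powersetCard] at hB
      have hd : Disjoint A B := by
        rw [Finset.disjoint_left]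
        intro x hx hx'
        exact Finset.mem_compl.1 (hB.1 hx') (hA hx)
      rw [Finset.mem_filter, Finset.mem_powersetCard]
      refine ⟨⟨Finset.subset_univ _, ?_⟩, ?_⟩
      · rw [Finset.card_union_of_disjoint hd, hB.2]
        omega
      · ext x
        rw [Finset.mem_inter, Finset.mem_union]
        constructor
        · rintro ⟨h2 | h2, h3⟩
          · exact h2
          · exact absurd h3 (Finset.mem_compl.1 (hB.1 h2))
        · intro h2
          exact ⟨Or.inl h2, hA h2⟩
    · intro R hR
      rw [Finset.mem_filter, Finset.mem_powersetCard] at hR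
      rw [Finset.mem_powersetCard]
      refine ⟨?_, ?_⟩
      · intro x hx
        exact Finset.mem_compl.2 (Finset.mem_sdiff.1 hx).2
      · have h2 := Finset.card_sdiff_add_card_inter R S
        rw [hR.2, hR.1.2] at h2
        omega
    · intro B hB
      rw [Finset.mem_powersetCard] at hB
      ext x
      rw [Finset.mem_sdiff, Finset.mem_union]
      constructor
      · rintro ⟨h2 | h2, h3⟩
        · exact absurd (hA h2) h3
        · exact h2
      · intro h2
        exact ⟨Or.inr h2, Finset.mem_compl.1 (hB.1 h2)⟩
    · intro R hR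
      rw [Finset.mem_filter] at hR
      have h2 := hR.2
      rw [← h2, Finset.union_comm]
      exact Finset.sdiff_union_inter R S
    · intro B hB
      rw [Finset.mem_powersetCard] at hB
      have e1 : (A ∪ B) ∩ S = A := by
        ext x
        rw [Finset.mem_inter, Finset.mem_union]
        constructor
        · rintro ⟨h2 | h2, h3⟩
          · exact h2
          · exact absurd h3 (Finset.mem_compl.1 (hB.1 h2))
        · intro h2
          exact ⟨Or.inl h2, hA h2⟩
      have e2 : (A ∪ B) \ S = B := by
        ext x
        rw [Finset.mem_sdiff, Finset.mem_union]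
        constructor
        · rintro ⟨h2 | h2, h3⟩
          · exact absurd (hA h2) h3
          · exact h2
        · intro h2
          exact ⟨Or.inr h2, Finset.mem_compl.1 (hB.1 h2)⟩
      have e3 : c ∈ A ∪ B ↔ c ∈ B := by
        rw [Finset.mem_union]
        exact ⟨fun h => h.resolve_left fun h' => hcS (hA h'), Or.inr⟩
      simp only [e1, e2, e3, hB.2]
  · rw [if_neg hr]
    apply Finset.sum_eq_zero
    intro R hR
    exfalso
    rw [Finset.mem_filter, Finset.mem_powersetCard] at hR
    apply hr
    rw [← hR.2, ← hR.1.2]
    exact Finset.card_le_card Finset.inter_subset_left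

end Pool.Agent.DPF.H60
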