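import Pool.Agent.DPF.StmtsM

/-!
Row NMA of the squad DPF (MP_d97b4e_co): the numeric problem for `t ≥ 3`, `L ≥ t + 2`.
-/

namespace Pool.Agent.DPF.H60

open Finset Pool.Agent.DPS

theorem nma (hO : OKDStmt) (hY : YPTStmt) (hA : SPAStmt) (hB : SPBStmt) (h1 : FQ1Stmt)
    (h2 : FQ2Stmt) : NMAStmt := by
  intro k t L ht hL hk
  refine ⟨del k t L, hO k t L ht hL hk, ?_⟩
  intro a M ha hM0 hM hsum
  have hm : Hm k t L a M := ⟨hM0, hM, hsum⟩
  have hX : 0 ≤ ∑ e ∈ range L, xe L a M e := by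
    refine Finset.sum_nonneg fun e _ => ?_
    unfold xe
    by_cases he : M e = 0
    · rw [he, zero_mul]
    · have h3 := hM e he
      have h4 : (a : ℝ) + 1 ≤ e := by exact_mod_cast h3.1
      have h5 : (a : ℝ) + 2 ≤ L := by exact_mod_cast ha
      have h6 : 0 ≤ ((e : ℝ) - a) / ((L : ℝ) - a) := div_nonneg (by linarith) (by linarith)
      exact mul_nonneg (hM0 e) h6
  have ch : ((L + 1 - t : ℕ) : ℝ) = (L : ℝ) - t + 1 := by
    rw [Nat.cast_sub (by omega)]
    push_cast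
    ring
  have cl : ((L - a : ℕ) : ℝ) = (L : ℝ) - a := Nat.cast_sub (by omega)
  have e1 : (L : ℝ) - t + 1 + t = L + 1 := by ring
  have e2 : (L : ℝ) + 1 - ((L : ℝ) - a) = a + 1 := by ring
  have e3 : (L : ℝ) + 1 - 1 = L := by ring
  have e4 : (L : ℝ) - t + 1 - 1 = (L : ℝ) - t := by ring
  have e5 : (L : ℝ) - t + 1 + 1 - ((L : ℝ) - a) = (a : ℝ) + 2 - t := by ring
  rcases Nat.lt_or_ge (2 * (L - a)) (L + 1 - t + 2) with hc | hc
  · -- `2 lam ≤ h + 1`
    obtain ⟨ω, hω0, hω1, hω, hq⟩ := h2 t (L + 1 - t) (L - a) ht (by omega) (by omega) (by omega)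
    have hqX := hq _ hX
    obtain ⟨σ, hσ0, hσ, hS⟩ := hB k t L a M ht hL hk ha hm (by omega)
    rw [ch, cl, e1, e2] at hω
    have hYY := hY k t L a M ω ht hL hk ha hm hω0 hω1 hω
    refine ⟨fun _ => σ, fun _ => hσ0, fun i _ e he _ => hσ e he, ?_⟩
    rw [ch, cl, e1, e2, e3, e5] at hqX
    have hsplit : ∑ i ∈ range L, wt L (del k t L) i *
        ph4 L a (s0 k t L) (sta k t L i) M σ 1 =
        ∑ i ∈ range L, wt L (del k t L) i *
          (((L : ℝ) - a) / L * (max (1 + gA L a (s0 k t L) (sta k t L i) M) 0) ^ 2 +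
          ((L : ℝ) - a) * ((L : ℝ) - a - 1) / (L * ((a : ℝ) + 1)) *
            (max (1 + gN L a (s0 k t L) (sta k t L i) M) 0) ^ 2) +
        ∑ i ∈ range L, wt L (del k t L) i *
          ((a : ℝ) / L * (σ * (max (1 - dA L (sta k t L i) M) 0) ^ 2) +
            ((L : ℝ) - a) / L * (σ * (max (1 - dB L a (sta k t L i) M) 0) ^ 2)) := by
      rw [← Finset.sum_add_distrib]
      refine Finset.sum_congr rfl fun i _ => ?_
      unfold ph4
      ring
    rw [hsplit]
    linarith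
  · -- `h + 2 ≤ 2 lam`
    obtain ⟨ω, hω0, hω1, hω, hq⟩ := h1 t (L + 1 - t) (L - a) ht (by omega) (by omega) (by omega)
    have hqX := hq _ hX
    obtain ⟨σ, hσ0, hσ, hS⟩ := hA k t L a M ht hL hk ha hm (by omega)
    rw [ch, cl, e1, e2] at hω
    have hYY := hY k t L a M ω ht hL hk ha hm hω0 hω1 hω
    refine ⟨fun _ => σ, fun _ => hσ0, fun i _ e he _ => hσ e he, ?_⟩
    rw [ch, cl, e1, e2, e3, e4] at hqX
    have hsplit : ∑ i ∈ range L, wt L (del k t L) i *
        ph4 L a (s0 k t L) (sta k t L i) M σ 1 =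
        ∑ i ∈ range L, wt L (del k t L) i *
          (((L : ℝ) - a) / L * (max (1 + gA L a (s0 k t L) (sta k t L i) M) 0) ^ 2 +
          ((L : ℝ) - a) * ((L : ℝ) - a - 1) / (L * ((a : ℝ) + 1)) *
            (max (1 + gN L a (s0 k t L) (sta k t L i) M) 0) ^ 2) +
        ∑ i ∈ range L, wt L (del k t L) i *
          ((a : ℝ) / L * (σ * (max (1 - dA L (sta k t L i) M) 0) ^ 2) +
            ((L : ℝ) - a) / L * (σ * (max (1 - dB L a (sta k t L i) M) 0) ^ 2)) := by
      rw [← Finset.sum_add_distrib]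
      refine Finset.sum_congr rfl fun i _ => ?_
      unfold ph4
      ring
    rw [hsplit]
    linarith

end Pool.Agent.DPF.H60
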